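import Pool.Agent.Y744.GP.Card

/-! Sets with the same parameters on four skew lines: a general criterion for being
`(4, b)`-geproci. -/

set_option autoImplicit false

open MvPolynomial
open Pool.Agent.Helper26.GeprociPts Pool.Agent.Helper26.GeprociCI
open Pool.Agent.Results.MP_586029_ag.GeprociMatroid
open Pool.Agent.Helper26.LineArr (lin lin_isHomogeneous)

namespace Pool.Agent.Q83.Mod

/-- polynomials in six line coordinates -/
abbrev RG : Type := MvPolynomial (Fin 3 ⊕ Fin 3) ℂ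

/-- the value of a line complex on the line through `P` and `x` -/
noncomputable def cx (Γ : RG) (P x : V4) : ℂ := eval (Sum.elim (aa P x) (bb P x)) Γ

/-- the line complex on the lines through `x`, as a polynomial in `P` -/
noncomputable def ppl (Γ : RG) (x : V4) : MvPolynomial (Fin 4) ℂ :=
  aeval (Sum.elim (aa XX (fun r => C (x r))) (bb XX (fun r => C (x r)))) Γ

/-- the line complex on the lines through `P`, as a polynomial on the plane -/
noncomputable def gpl (Γ : RG) (P : V4) (σ : V3 →ₗ[ℂ] V4) : R3 :=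
  aeval (Sum.elim (aa (fun k => C (P k)) (xs σ)) (bb (fun k => C (P k)) (xs σ))) Γ

lemma eval_aeval {τ : Type} (v : τ → ℂ) (f : Fin 3 ⊕ Fin 3 → MvPolynomial τ ℂ) (Γ : RG) :
    eval v (aeval f Γ) = eval (fun j => eval v (f j)) Γ := by
  induction Γ using MvPolynomial.induction_on with
  | C a => simp
  | add p q hp hq => rw [map_add, map_add, map_add, hp, hq]
  | mul_X p t hp => rw [map_mul, map_mul, map_mul, hp, aeval_X, eval_X]

lemma eval_ppl (Γ : RG) (P x : V4) : eval P (ppl Γ x) = cx Γ P x := by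
  unfold ppl cx
  rw [eval_aeval]
  congr 2
  funext j
  rcases j with j | j <;> fin_cases j <;> simp [aa, bb, XX]

lemma eval_gpl (Γ : RG) (P : V4) (σ : V3 →ₗ[ℂ] V4) (y : V3) :
    eval y (gpl Γ P σ) = cx Γ P (σ y) := by
  unfold gpl cx
  rw [eval_aeval]
  congr 2
  funext j
  rcases j with j | j <;> fin_cases j <;> simp [aa, bb, eval_xs]

lemma gpl_hom {Γ : RG} {b : ℕ} (h : Γ.IsHomogeneous b) (P : V4) (σ : V3 →ₗ[ℂ] V4) :
    (gpl Γ P σ).IsHomogeneous b := by
  have := h.aeval (Sum.elim (aa (fun k => C (P k)) (xs σ)) (bb (fun k => C (P k)) (xs σ)))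
    (n := 1) (by
      rintro (k | k)
      · exact aa_hom P σ k
      · exact bb_hom P σ k)
  simpa [gpl] using this

lemma eval_smul_hom {τ : Type} [Fintype τ] {F : MvPolynomial τ ℂ} {d : ℕ}
    (hF : F.IsHomogeneous d) (c : ℂ) (v : τ → ℂ) : eval (c • v) F = c ^ d * eval v F := by
  rw [eval_eq', eval_eq', Finset.mul_sum]
  refine Finset.sum_congr rfl fun e he => ?_
  have h1 : ∑ i, e i = d := by
    have := hF (MvPolynomial.mem_support_iff.mp he)
    rw [← this, Finsupp.weight_apply, Finsupp.sum_fintype]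
    · simp
    · simp
  simp only [Pi.smul_apply, smul_eq_mul, mul_pow, Finset.prod_mul_distrib]
  rw [Finset.prod_pow_eq_pow_sum, h1]
  ring

lemma cx_smul_add {Γ : RG} {b : ℕ} (h : Γ.IsHomogeneous b) (P x : V4) (c κ : ℂ) :
    cx Γ P (c • x + κ • P) = c ^ b * cx Γ P x := by
  unfold cx
  rw [aa_smul_add, bb_smul_add]
  have : (Sum.elim (c • aa P x) (c • bb P x) : Fin 3 ⊕ Fin 3 → ℂ) =
      c • Sum.elim (aa P x) (bb P x) := by
    funext j
    rcases j with j | j <;> rfl
  rw [this, eval_smul_hom h]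

/-- The parameters `(α l, β l)` and the line complex `Γ` of degree `b`. -/
structure Cfg {b : ℕ} (α β : Fin b → ℂ) (Γ : RG) : Prop where
  hα : ∀ l, α l ≠ 0
  hc : ∀ l l', l ≠ l' → α l * β l' - α l' * β l ≠ 0
  hΓ : Γ.IsHomogeneous b
  hv : ∀ i l P, cx Γ P (lpt i (α l) (β l)) = 0
  hn : ∀ i, ppl Γ (lpt i 0 1) ≠ 0

lemma lpt_ne_zero {i : Fin 4} {α β : ℂ} (h : α ≠ 0) : lpt i α β ≠ 0 := by
  intro h0
  have h1 : lpt i α β = (0 : ℂ) • lpt i 0 0 := by rw [zero_smul]; exact h0
  obtain ⟨h2, -⟩ := lpt_eq h1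
  rw [zero_mul] at h2
  exact h h2

/-- The points with the parameters `(α l, β l)` on the four lines. -/
def Zc {b : ℕ} (α β : Fin b → ℂ) : Set P3 :=
  {p | ∃ i l, ∃ h : lpt i (α l) (β l) ≠ 0, p = Projectivization.mk ℂ (lpt i (α l) (β l)) h}

section
variable {b : ℕ} {α β : Fin b → ℂ} {Γ : RG}

lemma mem_Zc {x : V4} (hx : x ≠ 0) (h : Projectivization.mk ℂ x hx ∈ Zc α β) :
    ∃ i l, ∃ c : ℂ, c ≠ 0 ∧ x = c • lpt i (α l) (β l) := by
  obtain ⟨i, l, h0, hij⟩ := h
  rw [Projectivization.mk_eq_mk_iff'] at hij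
  obtain ⟨c, hc⟩ := hij
  refine ⟨i, l, c, ?_, hc.symm⟩
  rintro rfl
  rw [zero_smul] at hc
  exact hx hc.symm

lemma smul_mem {c : ℂ} (i : Fin 4) (l : Fin b) (hc : c • lpt i (α l) (β l) ≠ 0) :
    Projectivization.mk ℂ (c • lpt i (α l) (β l)) hc ∈ Zc α β := by
  have hc0 : c ≠ 0 := by
    rintro rfl
    exact hc (zero_smul _ _)
  have h0 : lpt i (α l) (β l) ≠ 0 := by
    intro h0
    rw [h0, smul_zero] at hc
    exact hc rfl
  refine ⟨i, l, h0, ?_⟩
  rw [Projectivization.mk_eq_mk_iff']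
  exact ⟨c, rfl⟩

lemma ne_line (hs : Cfg α β Γ) {i k : Fin 4} (h : i ≠ k) (j j' : Fin b) (c : ℂ) :
    lpt i (α j) (β j) ≠ c • lpt k (α j') (β j') := by
  intro h1
  have h2 := ell_U (R := ℂ) i k h (α j) (β j)
  have h3 : ell (fun r => (U i k r : ℂ)) (lpt i (α j) (β j)) k = 0 := by
    rw [h1]
    have := ell_smul_add (fun r => (U i k r : ℂ)) (lpt k (α j') (β j')) c 0
    rw [zero_smul, add_zero] at this
    rw [this, Pi.smul_apply, ell_lpt_self, smul_zero]
  rw [h3] at h2
  exact hs.hα j (by linear_combination -h2 / 2)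

lemma ne_point (hs : Cfg α β Γ) {i : Fin 4} {j j' : Fin b} (h : j ≠ j')
    (c : ℂ) : lpt i (α j) (β j) ≠ c • lpt i (α j') (β j') := by
  intro h1
  obtain ⟨h2, h3⟩ := lpt_eq h1
  apply hs.hc j j' h
  rw [h2, h3]
  ring

lemma pt_inj (hs : Cfg α β Γ) {i k : Fin 4} {j j' : Fin b} {c : ℂ}
    (h : lpt i (α j) (β j) = c • lpt k (α j') (β j')) : i = k ∧ j = j' := by
  by_cases hik : i = k
  · subst hik
    refine ⟨rfl, ?_⟩
    by_contra hj
    exact ne_point hs hj c h
  · exact absurd h (ne_line hs hik j j' c)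

lemma Zc_eq_range (hs : Cfg α β Γ) : Zc α β =
    Set.range fun x : Fin 4 × Fin b =>
      Projectivization.mk ℂ (lpt x.1 (α x.2) (β x.2)) (lpt_ne_zero (hs.hα x.2)) := by
  ext p
  constructor
  · rintro ⟨i, l, h, rfl⟩
    exact ⟨(i, l), rfl⟩
  · rintro ⟨⟨i, l⟩, rfl⟩
    exact ⟨i, l, lpt_ne_zero (hs.hα l), rfl⟩

lemma Zc_finite (hs : Cfg α β Γ) : (Zc α β).Finite := by
  rw [Zc_eq_range hs]
  exact Set.finite_range _

lemma Zc_ncard (hs : Cfg α β Γ) : (Zc α β).ncard = 4 * b := by
  rw [Zc_eq_range hs, ← Set.image_univ, Set.ncard_image_of_injective, Set.ncard_univ,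
    Nat.card_eq_fintype_card, Fintype.card_prod, Fintype.card_fin, Fintype.card_fin]
  rintro ⟨i, j⟩ ⟨i', j'⟩ h
  simp only at h
  rw [Projectivization.mk_eq_mk_iff'] at h
  obtain ⟨c, hc⟩ := h
  obtain ⟨h1, h2⟩ := pt_inj hs hc.symm
  rw [h1, h2]

/-- The polynomial whose nonvanishing at `P` guarantees that `P` is general enough. -/
noncomputable def DC (α β : Fin b → ℂ) (Γ : RG) : MvPolynomial (Fin 4) ℂ :=
  (∏ i : Fin 4, ∏ k : Fin 4, ∏ j : Fin b,
    if i = k then 1 else ell XX (fun r => C (lpt i (α j) (β j) r)) k) *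
  ∏ i : Fin 4, ppl Γ (lpt i 0 1)

lemma DC_ne_zero (hs : Cfg α β Γ) : DC α β Γ ≠ 0 := by
  unfold DC
  refine mul_ne_zero ?_ ?_
  · rw [Finset.prod_ne_zero_iff]
    intro i _
    rw [Finset.prod_ne_zero_iff]
    intro k _
    rw [Finset.prod_ne_zero_iff]
    intro j _
    split_ifs with h
    · exact one_ne_zero
    · intro h0
      have h1 := congrArg (eval fun r => (U i k r : ℂ)) h0
      rw [eval_ell, map_zero] at h1
      rw [ell_U i k h] at h1
      exact hs.hα j (by linear_combination h1 / 2)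
  · rw [Finset.prod_ne_zero_iff]
    intro i _
    exact hs.hn i

lemma DC_general {P : V4} (h : eval P (DC α β Γ) ≠ 0) :
    (∀ i k j, i ≠ k → ell P (lpt i (α j) (β j)) k ≠ 0) ∧
      ∀ i, cx Γ P (lpt i 0 1) ≠ 0 := by
  unfold DC at h
  rw [map_mul] at h
  have h1 := left_ne_zero_of_mul h
  have h2 := right_ne_zero_of_mul h
  constructor
  · intro i k j hik
    rw [map_prod, Finset.prod_ne_zero_iff] at h1
    have h3 := h1 i (Finset.mem_univ _)
    rw [map_prod, Finset.prod_ne_zero_iff] at h3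
    have h4 := h3 k (Finset.mem_univ _)
    rw [map_prod, Finset.prod_ne_zero_iff] at h4
    have h5 := h4 j (Finset.mem_univ _)
    rw [if_neg hik, eval_ell] at h5
    exact h5
  · intro i
    rw [map_prod, Finset.prod_ne_zero_iff] at h2
    have h3 := h2 i (Finset.mem_univ _)
    rw [eval_ppl] at h3
    exact h3

/-- complete intersection of curves of degrees `a` and `b` -/
def IsCI (I : Ideal R3) (a b : ℕ) : Prop :=
  ∃ F G : R3, F.IsHomogeneous a ∧ G.IsHomogeneous b ∧
    RingTheory.Sequence.IsRegular R3 [F, G] ∧ I = Ideal.span {F, G}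

lemma geproci_C (hb : 0 < b) (hs : Cfg α β Γ) {P : V4} (hP : eval P (DC α β Γ) ≠ 0)
    {π : V4 →ₗ[ℂ] V3} (hπ : LinearMap.ker π = Submodule.span ℂ {P}) :
    IsCI (imageIdeal (Zc α β) π) 4 b := by
  obtain ⟨gen1, gen2⟩ := DC_general hP
  have hsurj : LinearMap.range π = ⊤ := by
    apply Submodule.eq_top_of_finrank_eq
    have h1 := LinearMap.finrank_range_add_finrank_ker π
    have h2 : Module.finrank ℂ (LinearMap.ker π) ≤ 1 := by
      rw [hπ]
      exact (finrank_span_le_card ({P} : Set V4)).trans (by simp)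
    have h3 : Module.finrank ℂ (LinearMap.range π) ≤ Module.finrank ℂ V3 :=
      Submodule.finrank_le _
    have h4 : Module.finrank ℂ V4 = 4 := by simp
    have h5 : Module.finrank ℂ V3 = 3 := by simp
    omega
  obtain ⟨σ, hσ⟩ := LinearMap.exists_rightInverse_of_surjective π hsurj
  have hπσ : ∀ y, π (σ y) = y := fun y => by
    have := LinearMap.congr_fun hσ y
    simpa using this
  have hσπ : ∀ x, ∃ κ : ℂ, σ (π x) = x + κ • P := by
    intro x
    have h1 : σ (π x) - x ∈ LinearMap.ker π := by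
      rw [LinearMap.mem_ker, map_sub, hπσ, sub_self]
    rw [hπ, Submodule.mem_span_singleton] at h1
    obtain ⟨κ, hκ⟩ := h1
    exact ⟨κ, by rw [hκ]; abel⟩
  have hellx : ∀ x k, ∑ r, ell P (σ (Pi.single r 1)) k * π x r = ell P x k := by
    intro x k
    rw [ell_linear]
    obtain ⟨κ, hκ⟩ := hσπ x
    have := ell_smul_add P x 1 κ
    rw [one_smul, one_smul] at this
    rw [hκ, this]
  have hGGx : ∀ x (c : ℂ), eval (c • π x) (gpl Γ P σ) = c ^ b * cx Γ P x := by
    intro x c
    rw [eval_gpl, map_smul]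
    obtain ⟨κ, hκ⟩ := hσπ x
    rw [hκ, smul_add, smul_smul, cx_smul_add hs.hΓ]
  set a : Fin 4 → V3 := fun i r => ell P (σ (Pi.single r 1)) i with ha
  set w : Fin 4 → Fin b → V3 := fun i l => π (lpt i (α l) (β l)) with hw
  let l0 : Fin b := ⟨0, hb⟩
  have hoff : ∀ i k l, i ≠ k → ∑ r, a k r * w i l r ≠ 0 := by
    intro i k l hik
    rw [hellx]
    exact gen1 i k _ hik
  have haw : ∀ i l, ∑ r, a i r * w i l r = 0 := by
    intro i l
    rw [hellx, ell_lpt_self]
  have hne : ∀ i : Fin 4, ∃ k, i ≠ k := by decide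
  have H : Data a w (gpl Γ P σ) := by
    refine ⟨?_, ?_, haw, hoff, ?_, gpl_hom hs.hΓ P σ, ?_, ?_⟩
    · intro i h0
      obtain ⟨k, hk⟩ := hne i
      apply hoff k i l0 hk.symm
      rw [h0]
      simp
    · intro i j h0
      obtain ⟨k, hk⟩ := hne i
      apply hoff i k j hk
      rw [h0]
      simp
    · intro i l l' hll c hc
      have h1 : lpt i (α l) (β l) - c • lpt i (α l') (β l') ∈ LinearMap.ker π := by
        rw [LinearMap.mem_ker, map_sub, map_smul]
        change w i l - c • w i l' = 0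
        rw [hc, sub_self]
      rw [hπ, Submodule.mem_span_singleton] at h1
      obtain ⟨κ, hκ⟩ := h1
      by_cases hκ0 : κ = 0
      · rw [hκ0, zero_smul] at hκ
        exact ne_point hs hll c (sub_eq_zero.mp hκ.symm)
      · obtain ⟨k, hk⟩ := hne i
        apply gen1 k i l hk.symm
        have hPl : P = lpt i (κ⁻¹ * (α l - c * α l')) (κ⁻¹ * (β l - c * β l')) := by
          have : P = κ⁻¹ • (κ • P) := by rw [smul_smul, inv_mul_cancel₀ hκ0, one_smul]
          rw [this, hκ]
          funext r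
          simp only [lpt, Pi.smul_apply, Pi.sub_apply, smul_eq_mul]
          ring
        rw [hPl, ell_lpt_left]
    · intro i l c _
      rw [hGGx, hs.hv, mul_zero]
    · intro i hdvd
      obtain ⟨p, hp⟩ := hdvd
      have h1 := congrArg (eval (π (lpt i 0 1))) hp
      rw [map_mul, eval_lin, hellx, ell_lpt_self, zero_mul] at h1
      have h2 := hGGx (lpt i 0 1) 1
      rw [one_smul, h1, one_pow, one_mul] at h2
      exact gen2 i h2.symm
  refine ⟨∏ i, lin (a i), gpl Γ P σ, ?_, gpl_hom hs.hΓ P σ,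
    isRegular_of_data H 0 l0, ?_⟩
  · have := IsHomogeneous.prod Finset.univ (fun i => lin (a i)) (fun _ => 1)
      (fun i _ => lin_isHomogeneous _)
    simpa using this
  · apply le_antisymm
    · intro F hF
      apply mem_span_of_data H Finset.univ F
      intro i _ l c hc
      have hc0 : c • lpt i (α l) (β l) ≠ 0 := smul_ne_zero hc (lpt_ne_zero (hs.hα l))
      have := hF (c • lpt i (α l) (β l)) hc0 (smul_mem i _ hc0)
      rw [map_smul] at this
      exact this
    · intro F hF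
      rw [Ideal.mem_span_pair] at hF
      obtain ⟨α', β', rfl⟩ := hF
      intro x hx hxZ
      obtain ⟨i, j, c, hc, rfl⟩ := mem_Zc hx hxZ
      have h1 : eval (π (c • lpt i (α j) (β j))) (∏ i, lin (a i)) = 0 := by
        rw [map_prod]
        apply Finset.prod_eq_zero (Finset.mem_univ i)
        rw [eval_lin, hellx]
        have := ell_smul_add P (lpt i (α j) (β j)) c 0
        rw [zero_smul, add_zero] at this
        rw [this, Pi.smul_apply, ell_lpt_self, smul_zero]
      have h2 : eval (π (c • lpt i (α j) (β j))) (gpl Γ P σ) = 0 := by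
        rw [map_smul, hGGx, hs.hv, mul_zero]
      rw [map_add, map_mul, map_mul, h1, h2]
      ring

end

end Pool.Agent.Q83.Mod
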