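import Pool.Agent.Q83.Mod.Cfg

/-! The sets: unions of `D₄` configurations and transversals. -/

set_option autoImplicit false

open MvPolynomial
open Pool.Agent.Helper26.GeprociPts Pool.Agent.Helper26.GeprociCI
open Pool.Agent.Results.MP_586029_ag.GeprociMatroid
open Pool.Agent.Y744.GP

namespace Pool.Agent.Q83.Mod

/-- the line complex of the lines meeting a transversal of the four lines -/
def Tau' {R : Type} [CommRing R] (w : R) (a b : Fin 3 → R) : R :=
  2 * (a 0 - b 0) + (-1 - 3 * w) * (a 1 - b 1) + (-1 + 3 * w) * (a 2 - b 2)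

lemma Tau'_lpt {w : ℂ} (h : 3 * w ^ 2 = -1) (i : Fin 4) (P : V4) :
    Tau' w (aa P (lpt i 1 w)) (bb P (lpt i 1 w)) = 0 := by
  fin_cases i <;> simp [Tau', aa, bb, lpt, ee, ff]
  · linear_combination (-2 * P 1 + P 2 + P 3) * h
  · linear_combination (2 * P 0 - P 2 + P 3) * h
  · linear_combination (-P 0 + P 1 + 2 * P 3) * h
  · linear_combination (-P 0 - P 1 - 2 * P 2) * h

lemma Tau'_U1 {w : ℂ} (h : 3 * w ^ 2 = -1) (i : Fin 4) :
    Tau' w (aa (fun r => (U1 i r : ℂ)) (lpt i 0 1)) (bb (fun r => (U1 i r : ℂ)) (lpt i 0 1)) ≠ 0 := by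
  have h1 : 1 + 3 * w ≠ 0 := by
    intro h0
    have : (4 : ℂ) = 0 := by linear_combination -(3 * w - 1) * h0 + 3 * h
    norm_num at this
  have h2 : 1 - 3 * w ≠ 0 := by
    intro h0
    have : (4 : ℂ) = 0 := by linear_combination (3 * w + 1) * h0 + 3 * h
    norm_num at this
  fin_cases i <;> simp [Tau', aa, bb, lpt, ee, ff, U1] <;> intro h0
  · have : (6 : ℂ) = 0 := by linear_combination -h0
    norm_num at this
  · have : (6 : ℂ) = 0 := by linear_combination -h0
    norm_num at this
  · exact h1 (by linear_combination h0 / 3)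
  · exact h2 (by linear_combination h0 / 3)

variable {n m : ℕ}

/-- the index of a point on a line -/
def ix (n m : ℕ) : Fin (n * 3 + m) ≃ (Fin n × Fin 3) ⊕ Fin m :=
  finSumFinEquiv.symm.trans (Equiv.sumCongr finProdFinEquiv.symm (Equiv.refl _))

/-- first parameters -/
noncomputable def al' (s : Fin n → ℂ) (m : ℕ) (l : Fin (n * 3 + m)) : ℂ :=
  Sum.elim (fun x : Fin n × Fin 3 => pA (s x.1) x.2) (fun _ : Fin m => 1) (ix n m l)

/-- second parameters -/
noncomputable def be' (s : Fin n → ℂ) (w : Fin m → ℂ) (l : Fin (n * 3 + m)) : ℂ :=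
  Sum.elim (fun x : Fin n × Fin 3 => pB (s x.1) x.2) w (ix n m l)

/-- the line complex -/
noncomputable def Ga (s : Fin n → ℂ) (w : Fin m → ℂ) : RG :=
  (∏ j, Psi' (C (s j)) (fun k => X (Sum.inl k)) (fun k => X (Sum.inr k))) *
    ∏ j, Tau' (C (w j)) (fun k => X (Sum.inl k)) (fun k => X (Sum.inr k))

lemma cx_Ga (s : Fin n → ℂ) (w : Fin m → ℂ) (P x : V4) :
    cx (Ga s w) P x = (∏ j, Psi (s j) P x) * ∏ j, Tau' (w j) (aa P x) (bb P x) := by
  unfold cx Ga
  rw [map_mul, map_prod, map_prod]
  congr 1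
  · refine Finset.prod_congr rfl fun j _ => ?_
    simp [Psi, Psi']
  · refine Finset.prod_congr rfl fun j _ => ?_
    simp [Tau']

lemma psi_hom (t : ℂ) :
    (Psi' (C t) (fun k => X (Sum.inl k)) (fun k => X (Sum.inr k)) : RG).IsHomogeneous 3 := by
  have c3 : (C 3 : RG) = 3 := map_ofNat C 3
  have c2 : (C 2 : RG) = 2 := map_ofNat C 2
  have e1 : (1 - 3 * C t * C t : RG) = C (1 - 3 * t * t) := by
    simp [map_sub, map_mul, c3]
  have e2 : (2 * C t * C t : RG) = C (2 * t * t) := by
    simp [map_mul, c2]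
  have e3 : (2 * C t : RG) = C (2 * t) := by
    simp [map_mul, c2]
  have e4 : ((1 + 3 * C t * C t) ^ 3 : RG) = C ((1 + 3 * t * t) ^ 3) := by
    simp [map_add, map_mul, map_pow, c3]
  unfold Psi'
  rw [e1, e2, e3, e4]
  have ha : ∀ k : Fin 3, (X (Sum.inl k) : RG).IsHomogeneous 1 := fun k => isHomogeneous_X _ _
  have hb : ∀ k : Fin 3, (X (Sum.inr k) : RG).IsHomogeneous 1 := fun k => isHomogeneous_X _ _
  have hu : ∀ k : Fin 3, (X (Sum.inl k) - X (Sum.inr k) : RG).IsHomogeneous 1 :=
    fun k => (ha k).sub (hb k)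
  have hs := ((hu 0).add (hu 1)).add (hu 2)
  refine IsHomogeneous.sub ?_ ?_
  · exact (((((hu 0).C_mul _).add (hs.C_mul _)).add (((hu 2).sub (hu 1)).C_mul _)).mul
      ((((hu 1).C_mul _).add (hs.C_mul _)).add (((hu 0).sub (hu 2)).C_mul _))).mul
      ((((hu 2).C_mul _).add (hs.C_mul _)).add (((hu 1).sub (hu 0)).C_mul _))
  · exact ((((ha 0).add (hb 0)).mul ((ha 1).add (hb 1))).mul ((ha 2).add (hb 2))).C_mul _

lemma tau_hom (t : ℂ) :
    (Tau' (C t) (fun k => X (Sum.inl k)) (fun k => X (Sum.inr k)) : RG).IsHomogeneous 1 := by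
  have c3 : (C 3 : RG) = 3 := map_ofNat C 3
  have c2 : (C 2 : RG) = 2 := map_ofNat C 2
  have e1 : (-1 - 3 * C t : RG) = C (-1 - 3 * t) := by
    simp [map_sub, map_mul, c3]
  have e2 : (-1 + 3 * C t : RG) = C (-1 + 3 * t) := by
    simp [map_add, map_mul, c3]
  unfold Tau'
  rw [e1, e2, ← c2]
  have ha : ∀ k : Fin 3, (X (Sum.inl k) : RG).IsHomogeneous 1 := fun k => isHomogeneous_X _ _
  have hb : ∀ k : Fin 3, (X (Sum.inr k) : RG).IsHomogeneous 1 := fun k => isHomogeneous_X _ _
  have hu : ∀ k : Fin 3, (X (Sum.inl k) - X (Sum.inr k) : RG).IsHomogeneous 1 :=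
    fun k => (ha k).sub (hb k)
  exact (((hu 0).C_mul _).add ((hu 1).C_mul _)).add ((hu 2).C_mul _)

lemma Ga_hom (s : Fin n → ℂ) (w : Fin m → ℂ) : (Ga s w).IsHomogeneous (n * 3 + m) := by
  have h1 := IsHomogeneous.prod Finset.univ
    (fun j => (Psi' (C (s j)) (fun k => X (Sum.inl k)) (fun k => X (Sum.inr k)) : RG))
    (fun _ => 3) (fun j _ => psi_hom (s j))
  have h2 := IsHomogeneous.prod Finset.univ
    (fun j => (Tau' (C (w j)) (fun k => X (Sum.inl k)) (fun k => X (Sum.inr k)) : RG))
    (fun _ => 1) (fun j _ => tau_hom (w j))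
  have h3 := h1.mul h2
  simpa [Ga] using h3

/-- The parameters are good. -/
lemma cfg {s : Fin n → ℂ} (hs : GoodS s) {w : Fin m → ℂ} (hw : ∀ j, 3 * w j ^ 2 = -1)
    (hwi : Function.Injective w) : Cfg (al' s m) (be' s w) (Ga s w) := by
  have hq : ∀ j, 1 + 3 * s j ^ 2 ≠ 0 := by
    intro j
    have := hs.hc j 0 j 1 (by simp)
    intro h0
    apply this
    simp only [pA, pB, Matrix.cons_val_zero, Matrix.cons_val_one]
    linear_combination h0
  have key : ∀ (j : Fin n) (a : Fin 3) (v : ℂ), 3 * v ^ 2 = -1 →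
      pA (s j) a * v - 1 * pB (s j) a ≠ 0 := by
    intro j a v hv h0
    have hvs : v ≠ s j := by
      intro h1
      apply hq j
      rw [← h1]
      linear_combination hv
    have h1 : 3 * v + 1 ≠ 0 := by
      intro h0
      have : (4 : ℂ) = 0 := by linear_combination -(3 * v - 1) * h0 + 3 * hv
      norm_num at this
    have h2 : 3 * v - 1 ≠ 0 := by
      intro h0
      have : (4 : ℂ) = 0 := by linear_combination -(3 * v + 1) * h0 + 3 * hv
      norm_num at this
    fin_cases a
    · simp [pA, pB] at h0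
      exact hvs (by linear_combination h0)
    · simp [pA, pB] at h0
      have : (3 * v + 1) * (v - s j) = 0 := by linear_combination h0 + hv
      rcases mul_eq_zero.mp this with h | h
      · exact h1 h
      · exact hvs (by linear_combination h)
    · simp [pA, pB] at h0
      have : (3 * v - 1) * (v - s j) = 0 := by linear_combination -h0 + hv
      rcases mul_eq_zero.mp this with h | h
      · exact h2 h
      · exact hvs (by linear_combination h)
  refine ⟨?_, ?_, Ga_hom s w, ?_, ?_⟩
  · intro l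
    unfold al'
    rcases ix n m l with ⟨j, a⟩ | j
    · exact hs.hA j a
    · simp
  · intro l l' hl
    have hl' : ix n m l ≠ ix n m l' := fun h => hl ((ix n m).injective h)
    unfold al' be'
    generalize ix n m l = y at hl'
    generalize ix n m l' = y' at hl'
    rcases y with ⟨j, a⟩ | j <;> rcases y' with ⟨j', a'⟩ | j'
    · simp only [Sum.elim_inl]
      exact hs.hc j a j' a' fun h => hl' (by rw [h])
    · simp only [Sum.elim_inl, Sum.elim_inr]
      exact key j a _ (hw j')
    · simp only [Sum.elim_inl, Sum.elim_inr]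
      intro h0
      exact key j' a' _ (hw j) (by linear_combination -h0)
    · simp only [Sum.elim_inr]
      intro h0
      apply hl'
      rw [hwi (show w j = w j' by linear_combination -h0)]
  · intro i l P
    rw [cx_Ga]
    unfold al' be'
    rcases ix n m l with ⟨j, a⟩ | j
    · simp only [Sum.elim_inl]
      rw [Finset.prod_eq_zero (Finset.mem_univ j), zero_mul]
      exact Psi_dp P (s j) i a
    · simp only [Sum.elim_inr]
      rw [Finset.prod_eq_zero (i := j) (s := Finset.univ)
        (f := fun j => Tau' (w j) (aa P (lpt i 1 (w _))) (bb P (lpt i 1 (w _)))), mul_zero]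
      · exact Finset.mem_univ _
      · exact Tau'_lpt (hw j) i P
  · intro i
    unfold ppl Ga
    rw [map_mul, map_prod, map_prod]
    refine mul_ne_zero ?_ ?_
    · rw [Finset.prod_ne_zero_iff]
      intro j _ h0
      have e : ∀ P : V4, eval P (aeval (Sum.elim (aa XX fun r => C (lpt i (0 : ℂ) 1 r))
          (bb XX fun r => C (lpt i (0 : ℂ) 1 r)))
          (Psi' (C (s j)) (fun k => X (Sum.inl k)) (fun k => X (Sum.inr k)) : RG)) =
          Psi (s j) P (lpt i 0 1) := by
        intro P
        have := eval_ppl (Psi' (C (s j)) (fun k => X (Sum.inl k)) (fun k => X (Sum.inr k))) P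
          (lpt i 0 1)
        unfold ppl at this
        rw [this]
        simp [cx, Psi, Psi']
      rcases hs.hw j with h | h
      · have h1 := e fun r => (U1 i r : ℂ)
        rw [h0, map_zero, h, Psi_zero, Phi_U1] at h1
        norm_num at h1
      · have h1 := e fun r => (U2 i r : ℂ)
        rw [h0, map_zero, Psi_U2] at h1
        exact h h1.symm
    · rw [Finset.prod_ne_zero_iff]
      intro j _ h0
      have := eval_ppl (Tau' (C (w j)) (fun k => X (Sum.inl k)) (fun k => X (Sum.inr k)))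
        (fun r => (U1 i r : ℂ)) (lpt i 0 1)
      unfold ppl at this
      rw [h0, map_zero] at this
      have e2 : cx (Tau' (C (w j)) (fun k => X (Sum.inl k)) (fun k => X (Sum.inr k)))
          (fun r => (U1 i r : ℂ)) (lpt i 0 1) = Tau' (w j) (aa (fun r => (U1 i r : ℂ))
          (lpt i 0 1)) (bb (fun r => (U1 i r : ℂ)) (lpt i 0 1)) := by
        simp [cx, Tau']
      exact Tau'_U1 (hw j) i (e2.symm.trans this.symm)

end Pool.Agent.Q83.Mod
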