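import Pool.Agent.Q83.Mod.Fam

/-! Non-triviality, and many projective equivalence classes. -/

set_option autoImplicit false

open MvPolynomial Cardinal
open Pool.Agent.Helper26.GeprociPts Pool.Agent.Helper26.GeprociCI
open Pool.Agent.Results.MP_586029_ag.GeprociMatroid
open Pool.Agent.Y744.GP

namespace Pool.Agent.Q83.Mod

lemma not_isGrid_of {Z : Set P3} (h : ∀ i a, Projectivization.mk ℂ (dp (0 : ℂ) i a)
    (dp_ne_zero _ _ _) ∈ Z) : ¬ IsGrid Z := by
  intro hg
  obtain ⟨c, hc0, hc⟩ := grid_quad hg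
  apply hc0
  have key : ∀ i a, quad c (dp (0 : ℂ) i a) = 0 := fun i a => hc _ (dp_ne_zero _ _ _) (h i a)
  apply quad_eq_zero_of_Zt (t := 0)
  intro i j
  have h1 : ∃ a, pt (0 : ℂ) i j = dp 0 i a := by
    fin_cases j
    · exact ⟨0, by simp [pt, dp, al, be, pA, pB]⟩
    · exact ⟨1, by simp [pt, dp, al, be, pA, pB]⟩
    · exact ⟨2, by simp [pt, dp, al, be, pA, pB]⟩
    · exact ⟨0, by simp [pt, dp, al, be, pA, pB]⟩
    · exact ⟨1, by simp [pt, dp, al, be, pA, pB]⟩
    · exact ⟨2, by simp [pt, dp, al, be, pA, pB]⟩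
  obtain ⟨a, ha⟩ := h1
  rw [ha]
  exact key i a

lemma not_isDegenerate_of {Z : Set P3} (h : ∀ i a, Projectivization.mk ℂ (dp (0 : ℂ) i a)
    (dp_ne_zero _ _ _) ∈ Z) : ¬ IsDegenerate Z := by
  rintro ⟨φ, hφ, hd⟩
  apply hφ
  apply LinearMap.pi_ext'
  intro i
  ext
  have h1 := hd _ (h i 0)
  obtain ⟨c, hc, hr⟩ := rep_mk (dp_ne_zero (0 : ℂ) i 0)
  rw [hr, map_smul, smul_eq_mul] at h1
  have h2 := (mul_eq_zero.mp h1).resolve_left hc
  rw [dp_zero] at h2
  simpa using h2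

/-- the sets -/
noncomputable def W {k m : ℕ} (w : Fin m → ℂ) (t : Fin k → ℂ) : Set P3 :=
  Zc (al' (ext0 t) m) (be' (ext0 t) w)

lemma mem_W {k m : ℕ} (w : Fin m → ℂ) (t : Fin k → ℂ) (i : Fin 4) (j : Fin (k + 1)) (a : Fin 3) :
    Projectivization.mk ℂ (dp (ext0 t j) i a) (dp_ne_zero _ _ _) ∈ W w t := by
  have h1 : al' (ext0 t) m ((ix (k + 1) m).symm (Sum.inl (j, a))) = pA (ext0 t j) a := by
    simp [al']
  have h2 : be' (ext0 t) w ((ix (k + 1) m).symm (Sum.inl (j, a))) = pB (ext0 t j) a := by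
    simp [be']
  refine ⟨i, (ix (k + 1) m).symm (Sum.inl (j, a)), ?_, ?_⟩
  · rw [h1, h2]
    exact dp_ne_zero _ _ _
  · simp only [h1, h2]
    rfl

lemma finite_class' {k m : ℕ} {w : Fin m → ℂ} (t0 : Fin k → ℂ) (hfin : (W w t0).Finite) :
    {t : Fin k → ℂ | ProjectivelyEquivalent (W w t) (W w t0)}.Finite := by
  by_contra hcon
  set T : Set (Fin k → ℂ) := {t : Fin k → ℂ | ProjectivelyEquivalent (W w t) (W w t0)} with hT
  have hTinf : Infinite T := Set.infinite_coe_iff.mpr hcon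
  have hfin' : Finite (W w t0) := hfin
  have hequiv : ∀ t : T, ∃ g : V4 ≃ₗ[ℂ] V4,
      Projectivization.map g.toLinearMap g.injective '' (W w (t : Fin k → ℂ)) = W w t0 :=
    fun t => t.2
  choose g hg using hequiv
  have hne : ∀ (t : T) (x : Fin (k + 1) × Fin 3),
      g t (dp (ext0 (t : Fin k → ℂ) x.1) 0 x.2) ≠ 0 := by
    intro t x
    rw [Ne, (g t).map_eq_zero_iff]
    exact dp_ne_zero _ _ _
  have hmem : ∀ (t : T) (x : Fin (k + 1) × Fin 3),
      Projectivization.mk ℂ (g t (dp (ext0 (t : Fin k → ℂ) x.1) 0 x.2)) (hne t x) ∈ W w t0 := by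
    intro t x
    rw [← hg t]
    exact ⟨_, mem_W w _ 0 x.1 x.2, rfl⟩
  let s : T → (Fin (k + 1) × Fin 3 → W w t0) := fun t x => ⟨_, hmem t x⟩
  obtain ⟨t, t', htt, hst⟩ := Finite.exists_ne_map_eq_of_infinite s
  apply htt
  apply Subtype.ext
  have hmap : ∀ x : Fin (k + 1) × Fin 3, ∃ c : ℂ,
      (g t).trans (g t').symm (dp (ext0 (t : Fin k → ℂ) x.1) 0 x.2) =
      c • dp (ext0 (t' : Fin k → ℂ) x.1) 0 x.2 := by
    intro x
    have h1 := congrArg Subtype.val (congrFun hst x)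
    simp only [s] at h1
    rw [Projectivization.mk_eq_mk_iff'] at h1
    obtain ⟨c, hc⟩ := h1
    refine ⟨c, ?_⟩
    rw [LinearEquiv.trans_apply, ← hc, map_smul, LinearEquiv.symm_apply_apply]
  choose c hmap using hmap
  have hp : ∀ (r : ℂ) (a : Fin 3), dp r 0 a =
      pA r a • (Pi.single 0 1 : V4) + pB r a • (fun l => (ff 0 l : ℂ) : V4) := by
    intro r a
    funext l
    fin_cases l <;> simp [dp, lpt, ee, ff]
  have hli : ∀ α β : ℂ, α • (Pi.single 0 1 : V4) + β • (fun l => (ff 0 l : ℂ) : V4) = 0 →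
      α = 0 ∧ β = 0 := by
    intro α β h
    have h0 := congrFun h 0
    have h1 := congrFun h 1
    simp [ff] at h0 h1
    exact ⟨h0, h1⟩
  have e0 := hmap (0, 0)
  have e1 := hmap (0, 1)
  have e2 := hmap (0, 2)
  funext l
  have e3 := hmap (l.succ, 0)
  simp only [ext0_zero, ext0_succ] at e0 e1 e2 e3
  rw [hp, hp] at e3
  rw [hp] at e0 e1 e2
  refine fix_line (h := (g t).trans (g t').symm) (e := Pi.single 0 1)
    (f := fun k => (ff 0 k : ℂ)) hli (l0 := c (0, 0)) (l1 := c (0, 1))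
    (l2 := c (0, 2)) (l3 := c (l.succ, 0)) ?_ ?_ ?_ ?_
  · simpa [pA, pB] using e0
  · simpa [pA, pB] using e1
  · simpa [pA, pB, ← sub_eq_add_neg] using e2
  · simpa [pA, pB] using e3

lemma exists_large' {k m : ℕ} (hk : 0 < k) {w : Fin m → ℂ}
    (hfin : ∀ t : Fin k → ℂ, AlgebraicIndependent ℚ t → (W w t).Finite) :
    ∃ T : Set (Fin k → ℂ), #T = 𝔠 ∧ (∀ t ∈ T, AlgebraicIndependent ℚ t) ∧
      ∀ t ∈ T, ∀ t' ∈ T, ProjectivelyEquivalent (W w t) (W w t') → t = t' := by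
  let A : Type := {t : Fin k → ℂ // AlgebraicIndependent ℚ t}
  let S : Setoid A :=
    { r := fun t t' => ProjectivelyEquivalent (W w t.1) (W w t'.1)
      iseqv := ⟨fun t => pe_refl _, fun h => pe_symm h, fun h h' => pe_trans h h'⟩ }
  have hQ : 𝔠 ≤ #(Quotient S) := by
    by_contra hlt
    push Not at hlt
    have h1 : #A ≤ #(Quotient S) * ℵ₀ := by
      apply mk_le_mk_mul_of_mk_preimage_le (Quotient.mk S)
      intro q
      obtain ⟨t0, rfl⟩ := Quotient.exists_rep q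
      apply le_of_lt
      rw [lt_aleph0_iff_set_finite]
      have h2 := (finite_class' t0.1 (hfin _ t0.2)).preimage
        (f := (Subtype.val : A → (Fin k → ℂ))) Subtype.val_injective.injOn
      refine h2.subset ?_
      intro t ht
      have h3 : Quotient.mk S t = Quotient.mk S t0 := ht
      exact Quotient.exact h3
    have h2 := mul_lt_of_lt aleph0_le_continuum hlt aleph0_lt_continuum
    exact absurd (continuum_le_ai hk) (not_le.mpr (h1.trans_lt h2))
  let f : Quotient S → (Fin k → ℂ) := fun q => (Quotient.out q).1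
  have hf : Function.Injective f := by
    intro q q' h
    have h1 : Quotient.out q = Quotient.out q' := Subtype.ext h
    rw [← Quotient.out_eq q, h1, Quotient.out_eq]
  refine ⟨Set.range f, ?_, ?_, ?_⟩
  · apply le_antisymm
    · calc #(Set.range f) ≤ #(Fin k → ℂ) := mk_set_le _
        _ = 𝔠 ^ (k : Cardinal) := by simp [mk_complex]
        _ ≤ 𝔠 ^ ℵ₀ := power_le_power_left continuum_ne_zero (le_of_lt natCast_lt_aleph0)
        _ = 𝔠 := continuum_power_aleph0
    · rw [mk_range_eq f hf]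
      exact hQ
  · rintro _ ⟨q, rfl⟩
    exact (Quotient.out q).2
  · rintro _ ⟨q, rfl⟩ _ ⟨q', rfl⟩ h
    have h1 : Quotient.mk S (Quotient.out q) = Quotient.mk S (Quotient.out q') :=
      Quotient.sound h
    rw [Quotient.out_eq, Quotient.out_eq] at h1
    rw [h1]

/-- a root of `3 w ^ 2 = -1` -/
lemma exists_root : ∃ v : ℂ, 3 * v ^ 2 = -1 ∧ v ≠ -v := by
  obtain ⟨v, hv⟩ := IsAlgClosed.exists_pow_nat_eq (-1 / 3 : ℂ) (n := 2) (by norm_num)
  refine ⟨v, by rw [hv]; norm_num, ?_⟩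
  intro h
  have h0 : v = 0 := by linear_combination h / 2
  rw [h0] at hv
  norm_num at hv

lemma exists_w (m : ℕ) (hm : m ≤ 2) : ∃ w : Fin m → ℂ, (∀ j, 3 * w j ^ 2 = -1) ∧
    Function.Injective w := by
  obtain ⟨v, hv, hne⟩ := exists_root
  have h2 : ∀ x : Fin 2, 3 * (![v, -v] x) ^ 2 = -1 := by
    intro x
    fin_cases x
    · exact hv
    · simpa using hv
  have hi : Function.Injective ![v, -v] := by
    intro x y h
    fin_cases x <;> fin_cases y
    · rfl
    · exact absurd h hne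
    · exact absurd h.symm hne
    · rfl
  exact ⟨fun j => ![v, -v] (Fin.castLE hm j), fun j => h2 _,
    hi.comp (Fin.castLE_injective hm)⟩

end Pool.Agent.Q83.Mod
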